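import Pool.Agent.Q78.BB.Stm
import Pool.Agent.Q190.BA.Ker

/-!
# Project BB (helper78), job K1: the moment of the kernel
-/

set_option autoImplicit false

open MeasureTheory Set Filter Topology
open scoped BigOperators ENNReal

namespace Pool.Agent.Q223.BB.K1

open Pool.Agent.Q78.BB Pool.Agent.Q276.BA

/-- the numerator of `H` at `k - 3/4` -/
theorem prodk (k m : ℕ) : ∏ s ∈ Finset.range (k + m), ((k : ℝ) - 3 / 4 - s) =
    (-1) ^ m * (∏ i ∈ Finset.range k, ((i : ℝ) + 1 / 4)) * ∏ i ∈ Finset.range m, ((i : ℝ) + 3 / 4) := by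
  rw [Finset.prod_range_add, ← Finset.prod_range_reflect]
  have e1 : ∀ i ∈ Finset.range k, ((k : ℝ) - 3 / 4 - ((k - 1 - i : ℕ) : ℝ)) = (i : ℝ) + 1 / 4 := by
    intro i hi
    have hi' := Finset.mem_range.1 hi
    have : ((k - 1 - i : ℕ) : ℝ) = (k : ℝ) - ((i + 1 : ℕ) : ℝ) := by
      rw [← Nat.cast_sub (by omega)]
      congr 1
      omega
    rw [this]
    push_cast
    ring
  have e2 : ∀ i ∈ Finset.range m, ((k : ℝ) - 3 / 4 - ((k + i : ℕ) : ℝ)) = (-1) * ((i : ℝ) + 3 / 4) := by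
    intro i _
    push_cast
    ring
  rw [Finset.prod_congr rfl e1, Finset.prod_congr rfl e2, Finset.prod_mul_distrib, Finset.prod_const,
    Finset.card_range]
  ring

/-- the coefficients in product form -/
theorem ccform (b j m : ℕ) :
    cc b (j + m + 1) j = (-1) ^ (m + 1) * (∏ i ∈ Finset.range (j + m + 1), ((b : ℝ) + j + 1 + i)) /
      ((j.factorial : ℝ) * (m.factorial : ℝ)) := by
  have e1 : j + m + 1 - 1 = j + m := by omega
  unfold cc
  rw [e1]
  have h1 : (((j + m).choose j : ℕ) : ℝ) * (j.factorial : ℝ) * (m.factorial : ℝ) = ((j + m).factorial : ℝ) := by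
    rw [Nat.choose_symm_add]
    exact_mod_cast Nat.add_choose_mul_factorial_mul_factorial j m
  have h2 : (((j + m + 1).factorial : ℕ) : ℝ) = ((j + m + 1 : ℕ) : ℝ) * ((j + m).factorial : ℝ) := by
    exact_mod_cast Nat.factorial_succ (j + m)
  have h3 : ∏ i ∈ Finset.range (j + m + 1), ((b : ℝ) + j + 1 + i) =
      ((j + m + 1).factorial : ℝ) * ((j + m + 1 + b + j).choose (j + m + 1) : ℝ) := by
    have h := Nat.ascFactorial_eq_factorial_mul_choose (b + j) (j + m + 1)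
    rw [Nat.ascFactorial_eq_prod_range] at h
    have h' := congrArg (fun z : ℕ => (z : ℝ)) h
    rw [show j + m + 1 + b + j = b + j + (j + m + 1) by omega]
    simp only [Nat.cast_prod, Nat.cast_mul] at h'
    rw [← h']
    refine Finset.prod_congr rfl fun i _ => ?_
    push_cast
    ring
  have h4 : (j.factorial : ℝ) ≠ 0 := by exact_mod_cast Nat.factorial_ne_zero j
  have h5 : (m.factorial : ℝ) ≠ 0 := by exact_mod_cast Nat.factorial_ne_zero m
  have h6 : ((-1 : ℝ)) ^ (j + m + 1 + j) = (-1) ^ (m + 1) := by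
    rw [show j + m + 1 + j = 2 * j + (m + 1) by omega, pow_add, pow_mul]
    norm_num
  rw [h6, h3, h2, ← h1, eq_div_iff (mul_ne_zero h4 h5)]
  ring

/-- The Chu-Vandermonde convolution for `5/4 + 3/4 = 2`. -/
theorem conv (K : ℕ) :
    ∑ p ∈ Finset.HasAntidiagonal.antidiagonal K, (∏ i ∈ Finset.range p.1, ((i : ℝ) + 5 / 4)) / (p.1.factorial : ℝ) *
      ((∏ i ∈ Finset.range p.2, ((i : ℝ) + 3 / 4)) / (p.2.factorial : ℝ)) = K + 1 := by
  set u : ℕ → ℝ := fun n => (∏ i ∈ Finset.range n, ((i : ℝ) + 5 / 4)) / (n.factorial : ℝ) with hu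
  set v : ℕ → ℝ := fun n => (∏ i ∈ Finset.range n, ((i : ℝ) + 3 / 4)) / (n.factorial : ℝ) with hv
  have hu1 : ∀ n : ℕ, ((n : ℝ) + 1) * u (n + 1) = ((n : ℝ) + 5 / 4) * u n := by
    intro n
    have h : (n.factorial : ℝ) ≠ 0 := by exact_mod_cast Nat.factorial_ne_zero n
    have h' : (n : ℝ) + 1 ≠ 0 := by positivity
    simp only [hu]
    rw [Finset.prod_range_succ, Nat.factorial_succ]
    generalize ∏ i ∈ Finset.range n, ((i : ℝ) + 5 / 4) = P
    push_cast
    field_simp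
  have hv1 : ∀ n : ℕ, ((n : ℝ) + 1) * v (n + 1) = ((n : ℝ) + 3 / 4) * v n := by
    intro n
    have h : (n.factorial : ℝ) ≠ 0 := by exact_mod_cast Nat.factorial_ne_zero n
    have h' : (n : ℝ) + 1 ≠ 0 := by positivity
    simp only [hv]
    rw [Finset.prod_range_succ, Nat.factorial_succ]
    generalize ∏ i ∈ Finset.range n, ((i : ℝ) + 3 / 4) = P
    push_cast
    field_simp
  change ∑ p ∈ Finset.HasAntidiagonal.antidiagonal K, u p.1 * v p.2 = K + 1
  induction K with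
  | zero => simp [hu, hv]
  | succ K ih =>
    have h1 : ((K : ℝ) + 1) * ∑ p ∈ Finset.HasAntidiagonal.antidiagonal (K + 1), u p.1 * v p.2 =
        ∑ p ∈ Finset.HasAntidiagonal.antidiagonal (K + 1), ((p.1 : ℝ) * u p.1 * v p.2) +
          ∑ p ∈ Finset.HasAntidiagonal.antidiagonal (K + 1), (u p.1 * ((p.2 : ℝ) * v p.2)) := by
      rw [Finset.mul_sum, ← Finset.sum_add_distrib]
      refine Finset.sum_congr rfl fun p hp => ?_
      have : ((p.1 : ℝ) + p.2) = K + 1 := by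
        have := Finset.HasAntidiagonal.mem_antidiagonal.1 hp
        exact_mod_cast this
      rw [← this]
      ring
    rw [Finset.Nat.sum_antidiagonal_succ (f := fun p : ℕ × ℕ => ((p.1 : ℝ) * u p.1 * v p.2)),
      Finset.Nat.sum_antidiagonal_succ' (f := fun p : ℕ × ℕ => (u p.1 * ((p.2 : ℝ) * v p.2)))] at h1
    have h2 : ∀ p ∈ Finset.HasAntidiagonal.antidiagonal K, (((p.1 + 1 : ℕ) : ℝ) * u (p.1 + 1) * v p.2) +
        (u p.1 * (((p.2 + 1 : ℕ) : ℝ) * v (p.2 + 1))) = ((K : ℝ) + 2) * (u p.1 * v p.2) := by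
      intro p hp
      have : ((p.1 : ℝ) + p.2) = K := by
        have := Finset.HasAntidiagonal.mem_antidiagonal.1 hp
        exact_mod_cast this
      push_cast
      rw [hu1, hv1, ← this]
      ring
    have h3 := Finset.sum_congr rfl h2
    rw [Finset.sum_add_distrib, ← Finset.mul_sum, ih] at h3
    simp only [Nat.cast_zero, zero_mul, mul_zero, zero_add] at h1
    rw [h3] at h1
    have h4 : ((K : ℝ) + 1) ≠ 0 := by positivity
    apply mul_left_cancel₀ h4
    rw [h1]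
    push_cast
    ring

/-- The function `H`. -/
noncomputable def HH (b N : ℕ) (x : ℝ) : ℝ :=
  (∏ s ∈ Finset.range N, (x - s)) / ∏ l ∈ Finset.range N, (x + b + l + 1)

/-- The moment as a double sum. -/
theorem ep_eq (b N : ℕ) :
    Ep b N = ∑ j ∈ Finset.range N, cc b N j * (HH b N ((j : ℝ) - 3 / 4) - HH b N ((j : ℝ) + 1 / 4)) := by
  have e : ∀ r : ℝ, (1 - r ^ 4) * r ^ (4 * b) * (pp b N (r ^ 4)) ^ 2 =
      ∑ j ∈ Finset.range N, ∑ l ∈ Finset.range N,
        cc b N j * (cc b N l * (r ^ (4 * (b + j + l)) - r ^ (4 * (b + j + l + 1)))) := by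
    intro r
    rw [sq, pp, Finset.sum_mul_sum, Finset.mul_sum]
    refine Finset.sum_congr rfl fun j _ => ?_
    rw [Finset.mul_sum]
    refine Finset.sum_congr rfl fun l _ => ?_
    rw [← pow_mul, ← pow_mul, show 4 * (b + j + l + 1) = 4 * b + 4 * j + 4 * l + 4 by ring,
      show 4 * (b + j + l) = 4 * b + 4 * j + 4 * l by ring]
    ring
  have hI : ∀ k : ℕ, ∫ r in (0 : ℝ)..1, r ^ (4 * k) = 1 / (4 * ((k : ℝ) + 1 / 4)) := by
    intro k
    rw [integral_pow]
    push_cast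
    rw [one_pow, zero_pow (by omega), sub_zero]
    congr 1
    ring
  unfold Ep
  rw [intervalIntegral.integral_congr (fun r _ => e r), intervalIntegral.integral_finsetSum fun j _ =>
      (Continuous.intervalIntegrable (by fun_prop) _ _), Finset.mul_sum]
  refine Finset.sum_congr rfl fun j _ => ?_
  rw [intervalIntegral.integral_finsetSum fun l _ =>
      (Continuous.intervalIntegrable (by fun_prop) _ _), Finset.mul_sum]
  have h1 := Pool.Agent.Q190.BA.rat b N ((j : ℝ) - 3 / 4) (fun l _ => by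
    have h : (0 : ℝ) < (j : ℝ) + b + l + 1 / 4 := by positivity
    have h' : ((j : ℝ) - 3 / 4 + b + l + 1) = (j : ℝ) + b + l + 1 / 4 := by ring
    rw [h']
    exact h.ne')
  have h2 := Pool.Agent.Q190.BA.rat b N ((j : ℝ) + 1 / 4) (fun l _ => by positivity)
  have h3 : HH b N ((j : ℝ) - 3 / 4) - HH b N ((j : ℝ) + 1 / 4) =
      ∑ l ∈ Finset.range N, (cc b N l / ((j : ℝ) - 3 / 4 + b + l + 1) - cc b N l / ((j : ℝ) + 1 / 4 + b + l + 1)) := by
    rw [Finset.sum_sub_distrib]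
    unfold HH
    rw [← h1, ← h2]
    ring
  rw [h3, Finset.mul_sum]
  refine Finset.sum_congr rfl fun l _ => ?_
  rw [intervalIntegral.integral_const_mul, intervalIntegral.integral_const_mul,
    intervalIntegral.integral_sub (Continuous.intervalIntegrable (by fun_prop) _ _)
      (Continuous.intervalIntegrable (by fun_prop) _ _), hI, hI]
  have p1 : (0 : ℝ) < (j : ℝ) + b + l + 1 / 4 := by positivity
  have p2 : (0 : ℝ) < (j : ℝ) + b + l + 5 / 4 := by positivity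
  rw [show ((j : ℝ) - 3 / 4 + b + l + 1) = (j : ℝ) + b + l + 1 / 4 by ring,
    show ((j : ℝ) + 1 / 4 + b + l + 1) = (j : ℝ) + b + l + 5 / 4 by ring,
    show (((b + j + l : ℕ) : ℝ) + 1 / 4) = (j : ℝ) + b + l + 1 / 4 by push_cast; ring,
    show (((b + j + l + 1 : ℕ) : ℝ) + 1 / 4) = (j : ℝ) + b + l + 5 / 4 by push_cast; ring]
  field_simp

/-- the first terms -/
theorem term1 (b j m : ℕ) (hb : 1 ≤ b) :
    cc b (j + m + 1) j * HH b (j + m + 1) ((j : ℝ) - 3 / 4) ≤ aa j * dd (m + 1) * rr (j + m + 1) j := by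
  have h1 : ∏ s ∈ Finset.range (j + m + 1), ((j : ℝ) - 3 / 4 - s) =
      (-1) ^ (m + 1) * (∏ i ∈ Finset.range j, ((i : ℝ) + 1 / 4)) * ∏ i ∈ Finset.range (m + 1), ((i : ℝ) + 3 / 4) :=
    prodk j (m + 1)
  have h2 : (∏ i ∈ Finset.range (j + m + 1), ((b : ℝ) + j + 1 + i)) /
      (∏ l ∈ Finset.range (j + m + 1), ((j : ℝ) - 3 / 4 + b + l + 1)) ≤ rr (j + m + 1) j := by
    rw [← Finset.prod_div_distrib]
    refine Finset.prod_le_prod (fun i _ => ?_) fun i _ => ?_
    · rw [show ((j : ℝ) - 3 / 4 + b + i + 1) = (j : ℝ) + b + i + 1 / 4 by ring]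
      positivity
    · rw [show ((j : ℝ) - 3 / 4 + b + i + 1) = (j : ℝ) + b + i + 1 / 4 by ring]
      rw [div_le_div_iff₀ (by positivity) (by positivity)]
      have hb' : (1 : ℝ) ≤ b := by exact_mod_cast hb
      nlinarith
  have h3 : aa j = (∏ i ∈ Finset.range j, ((i : ℝ) + 1 / 4)) / (j.factorial : ℝ) := by
    unfold aa
    rw [Finset.prod_div_distrib]
    congr 1
    rw [← Finset.prod_range_add_one_eq_factorial, Nat.cast_prod]
    refine Finset.prod_congr rfl fun i _ => ?_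
    push_cast
    ring
  have h4 : dd (m + 1) = (∏ i ∈ Finset.range (m + 1), ((i : ℝ) + 3 / 4)) / (m.factorial : ℝ) := rfl
  have h5 : 0 ≤ aa j * dd (m + 1) := by
    rw [h3, h4]
    positivity
  have h6 : cc b (j + m + 1) j * HH b (j + m + 1) ((j : ℝ) - 3 / 4) = aa j * dd (m + 1) *
      ((∏ i ∈ Finset.range (j + m + 1), ((b : ℝ) + j + 1 + i)) /
      (∏ l ∈ Finset.range (j + m + 1), ((j : ℝ) - 3 / 4 + b + l + 1))) := by
    unfold HH
    rw [ccform, h1, h3, h4]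
    have h7 : ((-1 : ℝ)) ^ (m + 1) * (-1) ^ (m + 1) = 1 := by rw [← mul_pow]; norm_num
    rw [div_mul_div_comm, div_mul_div_comm, div_mul_div_comm]
    congr 1
    linear_combination ((∏ i ∈ Finset.range (j + m + 1), ((b : ℝ) + j + 1 + i)) *
      (∏ i ∈ Finset.range j, ((i : ℝ) + 1 / 4)) * ∏ i ∈ Finset.range (m + 1), ((i : ℝ) + 3 / 4)) * h7
  rw [h6]
  exact mul_le_mul_of_nonneg_left h2 h5

theorem aux (Q R P f g D : ℝ) : 1 / 4 * (Q / f * (R / g)) * (P / D) = (1 / 4 * (Q * R) * P) / (f * g * D) := by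
  rw [div_mul_div_comm Q f R g, mul_div_assoc' (1 / 4 : ℝ), div_mul_div_comm]

/-- the second terms -/
theorem term2 (b j m : ℕ) :
    -(cc b (j + m + 1) j * HH b (j + m + 1) ((j : ℝ) + 1 / 4)) ≤
      1 / 4 * ((∏ i ∈ Finset.range j, ((i : ℝ) + 5 / 4)) / (j.factorial : ℝ) *
        ((∏ i ∈ Finset.range m, ((i : ℝ) + 3 / 4)) / (m.factorial : ℝ))) := by
  have h1 : ∏ s ∈ Finset.range (j + m + 1), ((j : ℝ) + 1 / 4 - s) =
      (-1) ^ m * (1 / 4 * ∏ i ∈ Finset.range j, ((i : ℝ) + 5 / 4)) * ∏ i ∈ Finset.range m, ((i : ℝ) + 3 / 4) := by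
    have h := prodk (j + 1) m
    rw [Finset.prod_range_succ' (fun i : ℕ => (i : ℝ) + 1 / 4), show j + 1 + m = j + m + 1 by omega] at h
    have e1 : ∏ s ∈ Finset.range (j + m + 1), ((j : ℝ) + 1 / 4 - s) =
        ∏ s ∈ Finset.range (j + m + 1), (((j + 1 : ℕ) : ℝ) - 3 / 4 - s) :=
      Finset.prod_congr rfl fun i _ => by push_cast; ring
    have e2 : ∏ i ∈ Finset.range j, ((i : ℝ) + 5 / 4) = ∏ i ∈ Finset.range j, (((i + 1 : ℕ) : ℝ) + 1 / 4) :=
      Finset.prod_congr rfl fun i _ => by push_cast; ring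
    rw [e1, h, e2]
    push_cast
    ring
  have h2 : (∏ i ∈ Finset.range (j + m + 1), ((b : ℝ) + j + 1 + i)) /
      (∏ l ∈ Finset.range (j + m + 1), ((j : ℝ) + 1 / 4 + b + l + 1)) ≤ 1 := by
    rw [← Finset.prod_div_distrib]
    refine Finset.prod_le_one (fun i _ => by positivity) fun i _ => ?_
    rw [div_le_one (by positivity)]
    linarith
  have h5 : 0 ≤ 1 / 4 * ((∏ i ∈ Finset.range j, ((i : ℝ) + 5 / 4)) / (j.factorial : ℝ) *
        ((∏ i ∈ Finset.range m, ((i : ℝ) + 3 / 4)) / (m.factorial : ℝ))) := by positivity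
  have h6 : -(cc b (j + m + 1) j * HH b (j + m + 1) ((j : ℝ) + 1 / 4)) =
      1 / 4 * ((∏ i ∈ Finset.range j, ((i : ℝ) + 5 / 4)) / (j.factorial : ℝ) *
        ((∏ i ∈ Finset.range m, ((i : ℝ) + 3 / 4)) / (m.factorial : ℝ))) *
      ((∏ i ∈ Finset.range (j + m + 1), ((b : ℝ) + j + 1 + i)) /
      (∏ l ∈ Finset.range (j + m + 1), ((j : ℝ) + 1 / 4 + b + l + 1))) := by
    unfold HH
    rw [ccform, h1]
    have h7 : ((-1 : ℝ)) ^ (m + 1) * (-1) ^ m = -1 := by
      rw [pow_succ, mul_right_comm, ← mul_pow]; norm_num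
    rw [aux, div_mul_div_comm, ← neg_div]
    congr 1
    linear_combination -((∏ i ∈ Finset.range (j + m + 1), ((b : ℝ) + j + 1 + i)) *
      (1 / 4 * ∏ i ∈ Finset.range j, ((i : ℝ) + 5 / 4)) * ∏ i ∈ Finset.range m, ((i : ℝ) + 3 / 4)) * h7
  rw [h6]
  exact mul_le_of_le_one_right h5 h2

/-- **K1** -/
theorem k1 : S_K1 := by
  intro b N hb hN
  obtain ⟨K, rfl⟩ : ∃ K, N = K + 1 := ⟨N - 1, by omega⟩
  rw [ep_eq]
  have h1 := conv K
  rw [Finset.Nat.sum_antidiagonal_eq_sum_range_succ (fun a c : ℕ =>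
    (∏ i ∈ Finset.range a, ((i : ℝ) + 5 / 4)) / (a.factorial : ℝ) *
      ((∏ i ∈ Finset.range c, ((i : ℝ) + 3 / 4)) / (c.factorial : ℝ)))] at h1
  have h2 : (((K + 1 : ℕ) : ℝ)) / 4 = ∑ j ∈ Finset.range (K + 1), 1 / 4 *
      ((∏ i ∈ Finset.range j, ((i : ℝ) + 5 / 4)) / (j.factorial : ℝ) *
        ((∏ i ∈ Finset.range (K - j), ((i : ℝ) + 3 / 4)) / ((K - j).factorial : ℝ))) := by
    rw [← Finset.mul_sum, h1]
    push_cast
    ring
  rw [h2, SS, ← Finset.sum_add_distrib]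
  refine Finset.sum_le_sum fun j hj => ?_
  obtain ⟨m, rfl⟩ : ∃ m, K = j + m := ⟨K - j, by have := Finset.mem_range.1 hj; omega⟩
  have t1 := term1 b j m hb
  have t2 := term2 b j m
  rw [show j + m - j = m by omega, show j + m + 1 - j = m + 1 by omega, mul_sub]
  linarith

end Pool.Agent.Q223.BB.K1
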